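import Pool.Agent.H6.FN.TargetsG

/-!
# MP_7500ea_al, board fcn_modules, row CON: invariant graphs of primitive groups
-/

set_option autoImplicit false

namespace Pool.Agent.H51.FN

open FI MulAction Pointwise

/-- An element of the group as an automorphism of an invariant graph. -/
def toIso {G α : Type} [Group G] [MulAction G α] (X : SimpleGraph α)
    (hX : ∀ (g : G) (u v : α), X.Adj u v → X.Adj (g • u) (g • v)) (g : G) : X ≃g X where
  toEquiv := MulAction.toPerm g
  map_rel_iff' := by
    intro u v
    constructor
    · intro h
      have h1 := hX g⁻¹ _ _ h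
      simpa using h1
    · intro h
      exact hX g u v h

theorem dist_le_smul {G α : Type} [Group G] [MulAction G α] (X : SimpleGraph α)
    (hX : ∀ (g : G) (u v : α), X.Adj u v → X.Adj (g • u) (g • v)) (g : G) (u v : α) :
    X.dist (g • u) (g • v) ≤ X.dist u v := by
  by_cases h : X.Reachable u v
  · obtain ⟨p, hp⟩ := h.exists_walk_length_eq_dist
    rw [← hp]
    have h1 := SimpleGraph.dist_le (p.map (toIso X hX g).toHom)
    rw [SimpleGraph.Walk.length_map] at h1
    exact h1
  · have h1 : ¬ X.Reachable (g • u) (g • v) := by
      intro h2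
      apply h
      exact (SimpleGraph.Iso.reachable_iff (φ := toIso X hX g)).1 h2
    rw [SimpleGraph.dist_eq_zero_of_not_reachable h1]
    exact Nat.zero_le _

theorem pf_CON : T_CON := by
  intro G α _ _ _ hprim X hX hab
  obtain ⟨a, b, hab⟩ := hab
  refine ⟨?_, ?_⟩
  · have hB : IsBlock G {x : α | X.Reachable a x} := by
      rw [isBlock_iff_smul_eq_or_disjoint]
      intro g
      by_cases h : X.Reachable a (g • a)
      · left
        ext x
        rw [Set.mem_smul_set_iff_inv_smul_mem, Set.mem_setOf_eq, Set.mem_setOf_eq]
        have h1 : X.Reachable a (g⁻¹ • x) ↔ X.Reachable (g • a) x := by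
          have h2 := SimpleGraph.Iso.reachable_iff (φ := toIso X hX g) (u := a) (v := g⁻¹ • x)
          rw [← h2]
          change X.Reachable (g • a) (g • g⁻¹ • x) ↔ _
          rw [smul_inv_smul]
        rw [h1]
        exact ⟨fun h2 => h.trans h2, fun h2 => h.symm.trans h2⟩
      · right
        rw [Set.disjoint_left]
        intro x hx hx'
        rw [Set.mem_smul_set_iff_inv_smul_mem, Set.mem_setOf_eq] at hx
        rw [Set.mem_setOf_eq] at hx'
        have h1 : X.Reachable a (g⁻¹ • x) ↔ X.Reachable (g • a) x := by
          have h2 := SimpleGraph.Iso.reachable_iff (φ := toIso X hX g) (u := a) (v := g⁻¹ • x)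
          rw [← h2]
          change X.Reachable (g • a) (g • g⁻¹ • x) ↔ _
          rw [smul_inv_smul]
        rw [h1] at hx
        exact h (hx'.trans hx.symm)
    have h1 := hprim.isTrivialBlock_of_isBlock hB
    have h2 : {x : α | X.Reachable a x} = Set.univ := by
      rcases h1 with h1 | h1
      · exfalso
        have ha : a ∈ {x : α | X.Reachable a x} := SimpleGraph.Reachable.refl a
        have hb : b ∈ {x : α | X.Reachable a x} := hab.reachable
        exact hab.ne (h1 ha hb)
      · exact h1
    have h3 : ∀ x, X.Reachable a x := by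
      intro x
      have : x ∈ {x : α | X.Reachable a x} := by
        rw [h2]
        exact Set.mem_univ x
      exact this
    haveI : Nonempty α := ⟨a⟩
    exact ⟨fun u v => (h3 u).symm.trans (h3 v)⟩
  · intro g u v
    apply le_antisymm
    · exact dist_le_smul X hX g u v
    · have h1 := dist_le_smul X hX g⁻¹ (g • u) (g • v)
      rw [inv_smul_smul, inv_smul_smul] at h1
      exact h1

end Pool.Agent.H51.FN
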