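import Pool.Agent.H6.FN.TargetsG

/-!
# MP_7500ea_al, board fcn_modules, row KPP: numbers of conjugacy classes of primitive groups
-/

set_option autoImplicit false

namespace Pool.Agent.H51.FN

open FI MulAction

theorem kc_le_card (G : Type) [Group G] [Finite G] : kc G ≤ Nat.card G :=
  Nat.card_le_card_of_surjective (ConjClasses.mk : G → ConjClasses G) ConjClasses.mk_surjective

open scoped Classical in
theorem pf_KPP (PRO : T_PRO) (KSN : T_KSN) (KSB : T_KSB) : T_KPP := by
  intro α _ T hT
  have : Fintype α := Fintype.ofFinite α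
  have hE : (4 : ℝ) ≤ Real.exp 500 := by
    have := Real.add_one_le_exp (500 : ℝ)
    linarith
  have hE1 : (1 : ℝ) ≤ Real.exp 500 := by linarith
  unfold PB
  by_cases hn : Nat.card α ≤ 1
  · have h1 : Subsingleton α := Finite.card_le_one_iff_subsingleton.1 hn
    have h2 : kc T ≤ Nat.card T := kc_le_card T
    have h3 : Nat.card T ≤ 1 := by
      rw [Finite.card_le_one_iff_subsingleton]
      infer_instance
    have h4 : (kc T : ℝ) ≤ 1 := by exact_mod_cast h2.trans h3
    exact h4.trans (one_le_pow₀ hE1)
  · have hn2 : 2 ≤ Nat.card α := by omega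
    have hnt : Nontrivial α := by
      rw [← Fintype.one_lt_card_iff_nontrivial, ← Nat.card_eq_fintype_card]
      omega
    have hnorb : norb α T = 1 := by
      have : IsPretransitive T α := hT.toIsPretransitive
      have : Subsingleton (orbitRel.Quotient T α) :=
        (pretransitive_iff_subsingleton_quotient T α).1 inferInstance
      have : Nonempty (orbitRel.Quotient T α) := by
        obtain ⟨a, _⟩ := exists_pair_ne α
        exact ⟨Quotient.mk'' a⟩
      exact Nat.card_eq_one_iff_unique.2 ⟨inferInstance, inferInstance⟩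
    rw [hnorb]
    obtain ⟨n, hn'⟩ : ∃ n, Nat.card α = n + 2 := ⟨Nat.card α - 2, by omega⟩
    have hn1 : Nat.card α - 1 = n + 1 := by omega
    rw [hn1]
    by_cases hA : alternatingGroup α ≤ T
    · have h1 : T.index ≤ 2 := by
        have h2 := Subgroup.index_dvd_of_le hA
        rw [alternatingGroup.index_eq_two] at h2
        exact Nat.le_of_dvd (by norm_num) h2
      have h3 : kc T ≤ T.index * kc (Equiv.Perm α) := KSB (Equiv.Perm α) T
      have h4 : kc (Equiv.Perm α) ≤ 2 ^ (Nat.card α - 1) := KSN α
      rw [hn1] at h4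
      have h5 : kc T ≤ 2 * 2 ^ (n + 1) := h3.trans (Nat.mul_le_mul h1 h4)
      have h6 : 2 * 2 ^ (n + 1) ≤ 4 ^ (n + 1) := by
        have h7 : (4 : ℕ) ^ (n + 1) = 2 ^ (n + 1) * 2 ^ (n + 1) := by
          rw [← mul_pow]; norm_num
        rw [h7]
        refine Nat.mul_le_mul_right _ ?_
        calc 2 = 2 ^ 1 := by norm_num
          _ ≤ 2 ^ (n + 1) := Nat.pow_le_pow_right (by norm_num) (by omega)
      have h8 : (kc T : ℝ) ≤ (4 : ℝ) ^ (n + 1) := by exact_mod_cast h5.trans h6
      exact h8.trans (pow_le_pow_left₀ (by norm_num) hE _)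
    · have h1 := PRO α T hT hA
      have h2 : (kc T : ℝ) ≤ Nat.card T := by exact_mod_cast kc_le_card T
      refine h2.trans (h1.trans ?_)
      rw [← Real.exp_nat_mul]
      apply Real.exp_le_exp.2
      rw [hn']
      push_cast
      have h3 : (0 : ℝ) ≤ n := Nat.cast_nonneg n
      linarith

end Pool.Agent.H51.FN
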